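import Pool.Agent.H855R2.Velichko

open Set Topology Filter

namespace Pool.Agent.Results.MP_195fab_gt.InfiniteCardinality

/-- `C_p(Z)`: the set of continuous functions `Z → ℝ` with the topology of pointwise convergence,
i.e. the subspace topology from the product `Z → ℝ`. -/
abbrev Cp (Z : Type*) [TopologicalSpace Z] := {f : Z → ℝ // Continuous f}

/-- homeomorphic spaces have homeomorphic function spaces -/
def cpCongr {A B : Type*} [TopologicalSpace A] [TopologicalSpace B] (φ : A ≃ₜ B) :
    Cp A ≃ₜ Cp B where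
  toFun g := ⟨fun b => g.1 (φ.symm b), g.2.comp φ.symm.continuous⟩
  invFun g := ⟨fun a => g.1 (φ a), g.2.comp φ.continuous⟩
  left_inv g := by ext a; simp
  right_inv g := by ext a; simp
  continuous_toFun := by
    refine Continuous.subtype_mk (continuous_pi fun b => ?_) _
    exact (continuous_apply (φ.symm b)).comp continuous_subtype_val
  continuous_invFun := by
    refine Continuous.subtype_mk (continuous_pi fun a => ?_) _
    exact (continuous_apply (φ a)).comp continuous_subtype_val

/-- restriction along the identity does nothing -/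
def cpId (X : Type*) [TopologicalSpace X] : Cp X ≃ₜ Pool.Agent.Helper126.CpR (id : X → X) where
  toFun f := ⟨f.1, f.1, f.2, rfl⟩
  invFun f := ⟨f.1, by obtain ⟨g, hg, hgf⟩ := f.2; rw [← hgf]; exact hg⟩
  left_inv f := rfl
  right_inv f := rfl
  continuous_toFun := Continuous.subtype_mk continuous_subtype_val _
  continuous_invFun := Continuous.subtype_mk continuous_subtype_val _

/-- one half of the finite case -/
theorem finite_of_finite {X Y : Type*} [TopologicalSpace X] [T35Space X] [TopologicalSpace Y]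
    [T35Space Y] (h : Cp (Cp X) ≃ₜ Cp (Cp Y)) (hX : Finite X) : Finite Y := by
  have h1 : SigmaCompactSpace (Pool.Agent.Helper126.Cp X) :=
    Pool.Agent.H855R2.sigmaCompact_of_finite
  have h2 : SigmaCompactSpace (Pool.Agent.Helper126.Cp Y) :=
    Pool.Agent.Helper126.sigmaCompact_of_homeo (Y := Pool.Agent.Helper126.Cp X) (cpCongr h)
  exact Pool.Agent.H855R2.finite_of_sigmaCompact

open Cardinal in
/-- one half of the infinite case -/
theorem card_le {X : Type*} {Y : Type*} [TopologicalSpace X] [T35Space X] [TopologicalSpace Y]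
    [T35Space Y] (h : Cp (Cp X) ≃ₜ Cp (Cp Y)) (hY : Infinite Y) : Nonempty (X ↪ Y) := by
  obtain ⟨D, hD⟩ := Pool.Agent.Helper126.cover_of_homeo (id : X → X) Function.injective_id
    (fun a : Cp Y => a.1) IsInducing.subtypeVal (h.symm.trans (cpCongr (cpId X)))
  choose p hp using hD
  -- the map `x ↦ (p x, position of x in D (p x))`
  let f : X → (Finset Y × ℕ) × ℕ := fun x => (p x, ((D (p x)).equivFin ⟨x, hp x⟩ : ℕ))
  have hf : Function.Injective f := by
    intro x y hxy
    have h1 : p x = p y := congrArg Prod.fst hxy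
    have h2 : ((D (p x)).equivFin ⟨x, hp x⟩ : ℕ) = ((D (p y)).equivFin ⟨y, hp y⟩ : ℕ) :=
      congrArg Prod.snd hxy
    have hy : y ∈ D (p x) := h1 ▸ hp y
    have h3 : ∀ (q : Finset Y × ℕ) (hq : y ∈ D q), q = p x →
        ((D q).equivFin ⟨y, hq⟩ : ℕ) = ((D (p x)).equivFin ⟨y, hy⟩ : ℕ) := by
      rintro q hq rfl
      rfl
    rw [h3 (p y) (hp y) h1.symm] at h2
    have h4 := (D (p x)).equivFin.injective (Fin.ext h2)
    exact congrArg Subtype.val h4
  have h5 : #((Finset Y × ℕ) × ℕ) = #Y := by
    simp only [mk_prod, lift_id, mk_finset_of_infinite, mk_nat, lift_aleph0, lift_uzero]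
    rw [mul_aleph0_eq (aleph0_le_mk Y), mul_aleph0_eq (aleph0_le_mk Y)]
  obtain ⟨e⟩ := Cardinal.eq.1 h5
  exact ⟨⟨fun x => e (f x), fun x y hxy => hf (e.injective hxy)⟩⟩

/-- Let `C_p(C_p(X))` and `C_p(C_p(Y))` be homeomorphic. Then `X` is finite if and only if `Y` is,
and if `Y` is infinite then `X` and `Y` have the same cardinality. -/
theorem result (X Y : Type*) [TopologicalSpace X] [T35Space X] [TopologicalSpace Y] [T35Space Y]
    (h : Nonempty (Cp (Cp X) ≃ₜ Cp (Cp Y))) :
    (Finite X ↔ Finite Y) ∧ (Infinite Y → Nonempty (X ≃ Y)) := by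
  obtain ⟨h⟩ := h
  have h1 : Finite X ↔ Finite Y := ⟨finite_of_finite h, finite_of_finite h.symm⟩
  refine ⟨h1, fun hY => ?_⟩
  have hX : Infinite X := by
    rw [← not_finite_iff_infinite] at hY ⊢
    exact fun h2 => hY (h1.1 h2)
  obtain ⟨f⟩ := card_le h hY
  obtain ⟨g⟩ := card_le h.symm hX
  exact Function.Embedding.antisymm f g

end Pool.Agent.Results.MP_195fab_gt.InfiniteCardinality
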